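import Pool.Agent.LTD.Main

set_option autoImplicit false

/-!
# Locating-total domination of twin-free graphs

Every finite twin-free graph of order `n` without isolated vertices has locating-total domination
number at most `2n/3`.
-/

namespace Pool.Agent.Results.MP_94f1c2_co.TwoThirds

universe u

/-- Two distinct vertices are twins if they have the same open or the same closed
neighbourhood. -/
def Twins {V : Type u} (G : SimpleGraph V) (x y : V) : Prop :=
  x ≠ y ∧ (G.neighborSet x = G.neighborSet y ∨
    insert x (G.neighborSet x) = insert y (G.neighborSet y))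

/-- A graph is twin-free if it has no pair of twins. -/
def TwinFree {V : Type u} (G : SimpleGraph V) : Prop := ∀ x y : V, ¬ Twins G x y

/-- Every vertex has a neighbour in `D`. -/
def IsTotalDominating {V : Type u} (G : SimpleGraph V) (D : Set V) : Prop :=
  ∀ v : V, ∃ w ∈ D, G.Adj v w

/-- Any two distinct vertices outside `D` have different sets of neighbours in `D`. -/
def IsLocating {V : Type u} (G : SimpleGraph V) (D : Set V) : Prop :=
  ∀ x y : V, x ∉ D → y ∉ D → x ≠ y → G.neighborSet x ∩ D ≠ G.neighborSet y ∩ D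

/-- `m` is the locating-total domination number of `G`: the least cardinality of a set which is
total dominating and locating. -/
def IsLocatingTotalDominationNumber {V : Type u} [Fintype V] (G : SimpleGraph V) (m : ℕ) : Prop :=
  IsLeast {k : ℕ | ∃ D : Finset V, IsTotalDominating G D ∧ IsLocating G D ∧ D.card = k} m

/-- A finite twin-free graph of order `n` without isolated vertices has a locating-total
domination number, and it is at most `2n/3`. -/
theorem result {V : Type u} [Fintype V] (G : SimpleGraph V)
    (hiso : ∀ v : V, ∃ w : V, G.Adj v w) (htf : TwinFree G) :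
    ∃ m : ℕ, IsLocatingTotalDominationNumber G m ∧ (m : ℚ) ≤ 2 / 3 * Fintype.card V := by
  classical
  set n := Fintype.card V with hn
  let e : V ≃ Fin n := Fintype.equivFin V
  let H : SimpleGraph (Fin n) := G.comap e.symm
  have hadj : ∀ i j : Fin n, H.Adj i j ↔ G.Adj (e.symm i) (e.symm j) := fun i j => Iff.rfl
  have h1 : ∀ v : Fin n, ∃ w : Fin n, H.Adj v w := by
    intro v
    obtain ⟨w, hw⟩ := hiso (e.symm v)
    exact ⟨e w, by rw [hadj, e.symm_apply_apply]; exact hw⟩
  have hne : ∀ x y : Fin n, x ≠ y → e.symm x ≠ e.symm y := fun x y h h' => h (e.symm.injective h')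
  have h2 : ∀ x y : Fin n, x ≠ y → H.neighborSet x ≠ H.neighborSet y := by
    intro x y hxy h
    refine htf (e.symm x) (e.symm y) ⟨hne x y hxy, Or.inl ?_⟩
    ext w
    have := congrArg (fun S => e w ∈ S) h
    simp only [SimpleGraph.mem_neighborSet, hadj, e.symm_apply_apply, eq_iff_iff] at this
    simpa only [SimpleGraph.mem_neighborSet] using this
  have h3 : ∀ x y : Fin n, x ≠ y →
      (insert x (H.neighborSet x) : Set (Fin n)) ≠ insert y (H.neighborSet y) := by
    intro x y hxy h
    refine htf (e.symm x) (e.symm y) ⟨hne x y hxy, Or.inr ?_⟩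
    ext w
    have := congrArg (fun S => e w ∈ S) h
    simp only [Set.mem_insert_iff, SimpleGraph.mem_neighborSet, hadj, e.symm_apply_apply,
      eq_iff_iff] at this
    simp only [Set.mem_insert_iff, SimpleGraph.mem_neighborSet]
    rw [e.eq_symm_apply, e.eq_symm_apply]
    exact this
  obtain ⟨D', hD1, hD2, hD3⟩ := Pool.Agent.LTD.ltd h1 h2 h3
  set D : Finset V := D'.map e.symm.toEmbedding with hD
  have hmem : ∀ v : V, v ∈ D ↔ e v ∈ D' := by
    intro v
    rw [hD, Finset.mem_map]
    constructor
    · rintro ⟨w, hw, rfl⟩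
      simpa using hw
    · intro h
      exact ⟨e v, h, by simp⟩
  have hDt : IsTotalDominating G (D : Set V) := by
    intro v
    obtain ⟨w, hw, hvw⟩ := hD1 (e v)
    refine ⟨e.symm w, ?_, ?_⟩
    · rw [Finset.mem_coe, hmem, e.apply_symm_apply]
      exact hw
    · rw [hadj, e.symm_apply_apply] at hvw
      exact hvw
  have hDl : IsLocating G (D : Set V) := by
    intro x y hx hy hxy h
    rw [Finset.mem_coe, hmem] at hx hy
    refine hD2 (e x) (e y) hx hy (fun h' => hxy (e.injective h')) ?_
    ext w
    have := congrArg (fun S => e.symm w ∈ S) h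
    simp only [Set.mem_inter_iff, SimpleGraph.mem_neighborSet, Finset.mem_coe, hmem,
      e.apply_symm_apply, eq_iff_iff] at this
    show w ∈ D' ∧ H.Adj (e x) w ↔ w ∈ D' ∧ H.Adj (e y) w
    rw [hadj, hadj, e.symm_apply_apply, e.symm_apply_apply, and_comm, this, and_comm]
  have hcard : D.card = D'.card := by rw [hD, Finset.card_map]
  have hex : ∃ k : ℕ, k ∈ {k : ℕ | ∃ D : Finset V, IsTotalDominating G D ∧ IsLocating G D ∧ D.card = k} :=
    ⟨D.card, D, hDt, hDl, rfl⟩
  refine ⟨Nat.find hex, ⟨Nat.find_spec hex, fun k hk => Nat.find_min' hex hk⟩, ?_⟩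
  have hle : Nat.find hex ≤ D.card := Nat.find_min' hex ⟨D, hDt, hDl, rfl⟩
  have h4 : 3 * Nat.find hex ≤ 2 * n := by
    rw [Fintype.card_fin] at hD3
    omega
  have h5 : (3 : ℚ) * (Nat.find hex : ℕ) ≤ 2 * (n : ℚ) := by exact_mod_cast h4
  linarith

end Pool.Agent.Results.MP_94f1c2_co.TwoThirds
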